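import Pool.Agent.P8H60.EN.Stm
import Pool.Agent.Helper256.KM.Mertens

/-! # EN/COS (helper45): cosine sums over primes, by discrete Abel summation -/

set_option autoImplicit false

namespace Pool.Agent.P8H45.EN.Cos

open Finset

/-- `|sin v - sin u - (v - u) cos v| ≤ (v - u) ^ 2` -/
lemma sin_taylor (u v : ℝ) (h : u ≤ v) :
    |Real.sin v - Real.sin u - (v - u) * Real.cos v| ≤ (v - u) ^ 2 := by
  have key : ‖(Real.sin v - v * Real.cos v) - (Real.sin u - u * Real.cos v)‖ ≤ (v - u) * ‖v - u‖ := by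
    refine Convex.norm_image_sub_le_of_norm_hasDerivWithin_le (f := fun x => Real.sin x - x * Real.cos v)
      (f' := fun x => Real.cos x - 1 * Real.cos v) (s := Set.Icc u v) (C := v - u) ?_ ?_
      (convex_Icc u v) (Set.left_mem_Icc.2 h) (Set.right_mem_Icc.2 h)
    · intro x _
      exact ((Real.hasDerivAt_sin x).sub ((hasDerivAt_id x).mul_const _)).hasDerivWithinAt
    · intro x hx
      rw [Real.norm_eq_abs, one_mul]
      have h1 := Real.abs_cos_sub_cos_le x v
      have h2 : |x - v| = v - x := by rw [abs_sub_comm, abs_of_nonneg (by linarith [hx.2])]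
      linarith [hx.1]
  rw [Real.norm_eq_abs, Real.norm_eq_abs, abs_of_nonneg (by linarith : (0 : ℝ) ≤ v - u)] at key
  calc _ = |Real.sin v - v * Real.cos v - (Real.sin u - u * Real.cos v)| := by congr 1; ring
    _ ≤ _ := by rw [sq]; exact key

lemma one_sub_div {a b : ℝ} (ha : 0 < a) (hab : a ≤ b) : (b - a) / b ≤ Real.log b - Real.log a := by
  have hb : 0 < b := ha.trans_le hab
  have h := Real.one_sub_inv_le_log_of_pos (div_pos hb ha)
  rw [Real.log_div hb.ne' ha.ne'] at h
  have e : 1 - (b / a)⁻¹ = (b - a) / b := by field_simp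
  linarith [e ▸ h]

/-- the step of the variation -/
lemma step_var (y a b : ℝ) (hy : 0 < y) (ha : 1 ≤ a) (hab : a ≤ b) :
    |Real.cos (y * b) / b - Real.cos (y * a) / a| ≤ y * (Real.log b - Real.log a) + (1 / a - 1 / b) := by
  have ha0 : 0 < a := by linarith
  have hb0 : 0 < b := by linarith
  have e : Real.cos (y * b) / b - Real.cos (y * a) / a =
      (Real.cos (y * b) - Real.cos (y * a)) / b + Real.cos (y * a) * (1 / b - 1 / a) := by
    field_simp; ring
  have h1 : |(Real.cos (y * b) - Real.cos (y * a)) / b| ≤ y * (Real.log b - Real.log a) := by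
    rw [abs_div, abs_of_pos hb0]
    have := Real.abs_cos_sub_cos_le (y * b) (y * a)
    have e2 : |y * b - y * a| = y * (b - a) := by
      rw [← mul_sub, abs_of_nonneg (mul_nonneg hy.le (by linarith))]
    calc _ ≤ y * (b - a) / b := by gcongr; linarith
      _ = y * ((b - a) / b) := by ring
      _ ≤ _ := by gcongr; exact one_sub_div ha0 hab
  have h2 : |Real.cos (y * a) * (1 / b - 1 / a)| ≤ 1 / a - 1 / b := by
    have h3 : 1 / b ≤ 1 / a := one_div_le_one_div_of_le ha0 hab
    rw [abs_mul, abs_sub_comm, abs_of_nonneg (by linarith : 0 ≤ 1 / a - 1 / b)]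
    have := Real.abs_cos_le_one (y * a)
    nlinarith
  rw [e]
  exact (abs_add_le _ _).trans (add_le_add h1 h2)

/-- the step of the main term -/
lemma step_main (y a b : ℝ) (hy : 0 < y) (ha : 1 ≤ a) (hab : a ≤ b) (hb : b ≤ a + 1) :
    |Real.cos (y * b) / b * (b - a) - (Real.sin (y * b) / (y * b) - Real.sin (y * a) / (y * a))| ≤
      y * (Real.log b - Real.log a) + 1 / y * (1 / a - 1 / b) := by
  have ha0 : 0 < a := by linarith
  have hb0 : 0 < b := by linarith
  have e : Real.cos (y * b) / b * (b - a) - (Real.sin (y * b) / (y * b) - Real.sin (y * a) / (y * a)) =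
      -(Real.sin (y * b) - Real.sin (y * a) - (y * b - y * a) * Real.cos (y * b)) / (y * b) +
        Real.sin (y * a) * (1 / y * (1 / a - 1 / b)) := by
    field_simp; ring
  have hle : y * a ≤ y * b := by gcongr
  have h1 : |-(Real.sin (y * b) - Real.sin (y * a) - (y * b - y * a) * Real.cos (y * b)) / (y * b)| ≤
      y * (Real.log b - Real.log a) := by
    rw [abs_div, abs_neg, abs_of_pos (mul_pos hy hb0)]
    have h := sin_taylor _ _ hle
    calc _ ≤ (y * b - y * a) ^ 2 / (y * b) := by gcongr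
      _ = y * ((b - a) * ((b - a) / b)) := by field_simp
      _ ≤ y * (1 * ((b - a) / b)) := by
        gcongr
        linarith
      _ ≤ _ := by rw [one_mul]; gcongr; exact one_sub_div ha0 hab
  have h2 : |Real.sin (y * a) * (1 / y * (1 / a - 1 / b))| ≤ 1 / y * (1 / a - 1 / b) := by
    have h3 : 1 / b ≤ 1 / a := one_div_le_one_div_of_le ha0 hab
    have h4 : 0 ≤ 1 / y * (1 / a - 1 / b) := mul_nonneg (by positivity) (by linarith)
    rw [abs_mul, abs_of_nonneg h4]
    have := Real.abs_sin_le_one (y * a)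
    nlinarith
  rw [e]
  exact (abs_add_le _ _).trans (add_le_add h1 h2)

lemma log3 : (1 : ℝ) ≤ Real.log 3 := by
  rw [Real.le_log_iff_exp_le (by norm_num)]
  have := Real.exp_one_lt_d9
  linarith

lemma log_ge {n : ℕ} (hn : 3 ≤ n) : (1 : ℝ) ≤ Real.log n :=
  log3.trans (Real.log_le_log (by norm_num) (by exact_mod_cast hn))

lemma log_step {n : ℕ} (hn : 3 ≤ n) : Real.log ((n + 1 : ℕ) : ℝ) ≤ Real.log n + 1 := by
  have hn0 : (0 : ℝ) < n := by positivity
  have h : ((n + 1 : ℕ) : ℝ) ≤ n * Real.exp 1 := by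
    have h1 := Real.exp_one_gt_d9
    have h2 : (3 : ℝ) ≤ n := by exact_mod_cast hn
    push_cast
    nlinarith
  calc _ ≤ Real.log (n * Real.exp 1) := Real.log_le_log (by positivity) h
    _ = _ := by rw [Real.log_mul hn0.ne' (Real.exp_pos 1).ne', Real.log_exp]

lemma log_mono {n : ℕ} (hn : 3 ≤ n) : Real.log n ≤ Real.log ((n + 1 : ℕ) : ℝ) :=
  Real.log_le_log (by positivity) (by push_cast; linarith)

noncomputable def PPs (n : ℕ) : ℝ := ∑ p ∈ (Finset.Icc 1 n).filter Nat.Prime, Real.log p / p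

lemma PPs_succ (n : ℕ) : PPs (n + 1) = PPs n +
    if (n + 1).Prime then Real.log ((n + 1 : ℕ) : ℝ) / ((n + 1 : ℕ) : ℝ) else 0 := by
  unfold PPs
  rw [sum_filter, sum_filter, Finset.sum_Icc_succ_top (by omega)]

lemma abel (z : ℕ) (y : ℝ) (hz : 3 ≤ z) (X : ℕ) (hX : z ≤ X) :
    ∑ p ∈ (Finset.Ioc z X).filter Nat.Prime, Real.cos (y * Real.log p) / p =
    Real.cos (y * Real.log X) / Real.log X * (PPs X - Real.log X) -
    Real.cos (y * Real.log z) / Real.log z * (PPs z - Real.log z) -
    ∑ n ∈ Finset.Ico z X, (Real.cos (y * Real.log ((n + 1 : ℕ) : ℝ)) / Real.log ((n + 1 : ℕ) : ℝ) -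
      Real.cos (y * Real.log n) / Real.log n) * (PPs n - Real.log n) +
    ∑ n ∈ Finset.Ico z X, Real.cos (y * Real.log ((n + 1 : ℕ) : ℝ)) / Real.log ((n + 1 : ℕ) : ℝ) *
      (Real.log ((n + 1 : ℕ) : ℝ) - Real.log n) := by
  induction X, hX using Nat.le_induction with
  | base => simp
  | succ X hX ih =>
    rw [sum_filter] at ih ⊢
    rw [Finset.sum_Ioc_succ_top hX, ih, Finset.sum_Ico_succ_top hX, Finset.sum_Ico_succ_top hX, PPs_succ]
    have hl : Real.log ((X + 1 : ℕ) : ℝ) ≠ 0 := by
      have := log_ge (show 3 ≤ X + 1 by omega)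
      linarith
    have hx : ((X + 1 : ℕ) : ℝ) ≠ 0 := by positivity
    split_ifs with hp
    · field_simp
      ring
    · ring

theorem t_COS : Pool.Agent.P8H60.EN.S_COS := by
  obtain ⟨C, hC⟩ := Pool.Agent.Helper256.KM.Mert.mertens_log
  have hC0 : 0 ≤ C := (abs_nonneg _).trans (hC 1 le_rfl)
  refine ⟨2 * C + 2, by positivity, fun z X y hz hX hy => ?_⟩
  have hE : ∀ n : ℕ, 3 ≤ n → |PPs n - Real.log n| ≤ C := fun n hn => hC n (by omega)
  have hlz := log_ge hz
  have hlX := log_ge (hz.trans hX)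
  have hle : Real.log z ≤ Real.log X := Real.log_le_log (by positivity) (by exact_mod_cast hX)
  -- variation
  have hvar : ∀ X : ℕ, z ≤ X → ∑ n ∈ Finset.Ico z X,
      |Real.cos (y * Real.log ((n + 1 : ℕ) : ℝ)) / Real.log ((n + 1 : ℕ) : ℝ) -
      Real.cos (y * Real.log n) / Real.log n| ≤
      y * (Real.log (Real.log X) - Real.log (Real.log z)) + (1 / Real.log z - 1 / Real.log X) := by
    intro X hX
    induction X, hX using Nat.le_induction with
    | base => simp
    | succ X hX ih =>
      rw [Finset.sum_Ico_succ_top hX]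
      have := step_var y (Real.log X) (Real.log ((X + 1 : ℕ) : ℝ)) hy (log_ge (hz.trans hX))
        (log_mono (hz.trans hX))
      linarith
  have hmain : ∀ X : ℕ, z ≤ X → |∑ n ∈ Finset.Ico z X,
      Real.cos (y * Real.log ((n + 1 : ℕ) : ℝ)) / Real.log ((n + 1 : ℕ) : ℝ) *
      (Real.log ((n + 1 : ℕ) : ℝ) - Real.log n) -
      (Real.sin (y * Real.log X) / (y * Real.log X) - Real.sin (y * Real.log z) / (y * Real.log z))| ≤
      y * (Real.log (Real.log X) - Real.log (Real.log z)) + 1 / y * (1 / Real.log z - 1 / Real.log X) := by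
    intro X hX
    induction X, hX using Nat.le_induction with
    | base => simp
    | succ X hX ih =>
      rw [Finset.sum_Ico_succ_top hX]
      have h := step_main y (Real.log X) (Real.log ((X + 1 : ℕ) : ℝ)) hy (log_ge (hz.trans hX))
        (log_mono (hz.trans hX)) (log_step (hz.trans hX))
      rw [abs_le] at h ih ⊢
      have e : 1 / y * (1 / Real.log z - 1 / Real.log ((X + 1 : ℕ) : ℝ)) =
        1 / y * (1 / Real.log z - 1 / Real.log X) +
        1 / y * (1 / Real.log X - 1 / Real.log ((X + 1 : ℕ) : ℝ)) := by ring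
      rw [e]
      constructor <;> [linarith [h.1, ih.1]; linarith [h.2, ih.2]]
  rw [abel z y hz X hX]
  have h1 : |Real.cos (y * Real.log X) / Real.log X * (PPs X - Real.log X)| ≤ 1 / Real.log X * C := by
    rw [abs_mul, abs_div, abs_of_pos (by linarith : 0 < Real.log X)]
    gcongr
    · exact Real.abs_cos_le_one _
    · exact hE X (hz.trans hX)
  have h2 : |Real.cos (y * Real.log z) / Real.log z * (PPs z - Real.log z)| ≤ 1 / Real.log z * C := by
    rw [abs_mul, abs_div, abs_of_pos (by linarith : 0 < Real.log z)]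
    gcongr
    · exact Real.abs_cos_le_one _
    · exact hE z hz
  have h3 : |∑ n ∈ Finset.Ico z X, (Real.cos (y * Real.log ((n + 1 : ℕ) : ℝ)) / Real.log ((n + 1 : ℕ) : ℝ) -
      Real.cos (y * Real.log n) / Real.log n) * (PPs n - Real.log n)| ≤
      (y * (Real.log (Real.log X) - Real.log (Real.log z)) + (1 / Real.log z - 1 / Real.log X)) * C := by
    refine (Finset.abs_sum_le_sum_abs _ _).trans ?_
    refine le_trans ?_ (mul_le_mul_of_nonneg_right (hvar X hX) hC0)
    rw [Finset.sum_mul]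
    refine Finset.sum_le_sum fun n hn => ?_
    rw [abs_mul]
    gcongr
    exact hE n (hz.trans (Finset.mem_Ico.1 hn).1)
  have h4 := hmain X hX
  have h5 : |Real.sin (y * Real.log X) / (y * Real.log X)| ≤ 1 / (y * Real.log X) := by
    rw [abs_div, abs_of_pos (mul_pos hy (by linarith : 0 < Real.log X))]
    gcongr
    exact Real.abs_sin_le_one _
  have h6 : |Real.sin (y * Real.log z) / (y * Real.log z)| ≤ 1 / (y * Real.log z) := by
    rw [abs_div, abs_of_pos (mul_pos hy (by linarith : 0 < Real.log z))]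
    gcongr
    exact Real.abs_sin_le_one _
  have e1 : 1 / y * (1 / Real.log z - 1 / Real.log X) = 1 / (y * Real.log z) - 1 / (y * Real.log X) := by
    rw [mul_sub, one_div_mul_one_div, one_div_mul_one_div]
  rw [e1] at h4
  have hD : 0 ≤ y * (Real.log (Real.log X) - Real.log (Real.log z)) :=
    mul_nonneg hy.le (sub_nonneg.2 (Real.log_le_log (by linarith) hle))
  have hz0 : 0 ≤ 1 / (y * Real.log z) := by positivity
  have hz1 : 0 ≤ 1 / Real.log z := by positivity
  rw [abs_le] at h1 h2 h3 h4 h5 h6 ⊢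
  have hCz : 0 ≤ C * (1 / (y * Real.log z)) := mul_nonneg hC0 hz0
  have hCD : 0 ≤ C * (y * (Real.log (Real.log X) - Real.log (Real.log z))) := mul_nonneg hC0 hD
  constructor <;> nlinarith [h1.1, h1.2, h2.1, h2.2, h3.1, h3.2, h4.1, h4.2, h5.1, h5.2, h6.1, h6.2]

end Pool.Agent.P8H45.EN.Cos
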