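import Pool.Agent.P8H60.EN.Stm
import Pool.Agent.Helper256.KM.Mertens

/-! # EN/LS (helper45): lower bound for a mean square over primes -/

set_option autoImplicit false

namespace Pool.Agent.P8H45.EN.Ls

open Complex

open Finset

lemma norm_trig {m : ℕ} (b θ : Fin m → ℝ) :
    ‖∑ i, (b i : ℂ) * cexp (-(I * ((θ i : ℝ) : ℂ)))‖ ^ 2 = ∑ i, ∑ k, b i * b k * Real.cos (θ i - θ k) := by
  have e : ∑ i, (b i : ℂ) * cexp (-(I * ((θ i : ℝ) : ℂ))) =
      ((∑ i, b i * Real.cos (θ i) : ℝ) : ℂ) + ((-∑ i, b i * Real.sin (θ i) : ℝ) : ℂ) * I := by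
    push_cast
    rw [neg_mul, Finset.sum_mul, ← sub_eq_add_neg, ← Finset.sum_sub_distrib]
    refine Finset.sum_congr rfl fun i _ => ?_
    have : -(I * (θ i : ℂ)) = ((-θ i : ℝ) : ℂ) * I := by push_cast; ring
    rw [this, Complex.exp_mul_I, ← Complex.ofReal_cos, ← Complex.ofReal_sin, Real.cos_neg, Real.sin_neg]
    push_cast
    ring
  rw [e, ← Complex.normSq_eq_norm_sq, Complex.normSq_add_mul_I]
  rw [neg_sq, sq, sq, Finset.sum_mul_sum, Finset.sum_mul_sum, ← Finset.sum_add_distrib]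
  refine Finset.sum_congr rfl fun i _ => ?_
  rw [← Finset.sum_add_distrib]
  refine Finset.sum_congr rfl fun k _ => ?_
  rw [Real.cos_sub]
  ring

theorem t_LS : Pool.Agent.P8H60.EN.S_LSA := by
  intro hcos
  obtain ⟨C0, hC0, hcos⟩ := hcos
  obtain ⟨C1, hC1⟩ := Pool.Agent.Helper256.KM.Mert.mertens_inv
  have hC10 : 0 ≤ C1 := (abs_nonneg _).trans (hC1 3 le_rfl)
  refine ⟨2 * C1 + C0, by positivity, fun z X m b y d D hz hX hd hsep hD => ?_⟩
  have hlz : 0 < Real.log z := Real.log_pos (by exact_mod_cast (show 1 < z by omega))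
  have hlX : Real.log z ≤ Real.log X := Real.log_le_log (by positivity) (by exact_mod_cast hX)
  set Δ := Real.log (Real.log X) - Real.log (Real.log z) with hΔ
  have hΔ0 : 0 ≤ Δ := sub_nonneg.2 (Real.log_le_log hlz hlX)
  rcases Nat.eq_zero_or_pos m with hm | hm
  · subst hm
    simp
  have hD0 : 0 ≤ D := by
    have := hD ⟨0, hm⟩ ⟨0, hm⟩
    simpa using this
  set R := 1 / (d * Real.log z) + D * Δ + 1 / Real.log z with hR
  have hR0 : 0 ≤ R := by positivity
  -- the kernel
  set Kr : Fin m → Fin m → ℝ := fun i k =>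
    ∑ p ∈ (Finset.Ioc z X).filter Nat.Prime, Real.cos ((y i - y k) * Real.log p) / p with hKr
  have hrhs : ∑ p ∈ (Finset.Ioc z X).filter Nat.Prime,
      (1 / p : ℝ) * ‖∑ i, (b i : ℂ) * cexp (-(I * ((y i * Real.log p : ℝ) : ℂ)))‖ ^ 2 =
      ∑ i, ∑ k, b i * b k * Kr i k := by
    have e : ∀ p ∈ (Finset.Ioc z X).filter Nat.Prime,
        (1 / p : ℝ) * ‖∑ i, (b i : ℂ) * cexp (-(I * ((y i * Real.log p : ℝ) : ℂ)))‖ ^ 2 =
        ∑ i, ∑ k, b i * b k * (Real.cos ((y i - y k) * Real.log p) / p) := by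
      intro p _
      rw [norm_trig b (fun i => y i * Real.log p), Finset.mul_sum]
      refine Finset.sum_congr rfl fun i _ => ?_
      rw [Finset.mul_sum]
      refine Finset.sum_congr rfl fun k _ => ?_
      rw [sub_mul]
      ring
    rw [Finset.sum_congr rfl e, Finset.sum_comm]
    refine Finset.sum_congr rfl fun i _ => ?_
    rw [Finset.sum_comm]
    refine Finset.sum_congr rfl fun k _ => ?_
    rw [hKr, Finset.mul_sum]
  rw [hrhs]
  have hdiag : ∀ i, Δ - 2 * C1 ≤ Kr i i := by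
    intro i
    have h1 := abs_le.1 (hC1 z hz)
    have h2 := abs_le.1 (hC1 X (hz.trans hX))
    have h3 : ∑ p ∈ (Finset.Icc 1 X).filter Nat.Prime, (1 : ℝ) / p =
        ∑ p ∈ (Finset.Icc 1 z).filter Nat.Prime, (1 : ℝ) / p + Kr i i := by
      rw [hKr]
      simp only [sub_self, zero_mul, Real.cos_zero]
      rw [← Finset.sum_union]
      · refine Finset.sum_congr ?_ fun _ _ => rfl
        ext p
        simp only [Finset.mem_filter, Finset.mem_union, Finset.mem_Icc, Finset.mem_Ioc]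
        constructor
        · rintro ⟨⟨h1, h2⟩, h3⟩
          rcases le_or_gt p z with h | h
          · exact Or.inl ⟨⟨h1, h⟩, h3⟩
          · exact Or.inr ⟨⟨h, h2⟩, h3⟩
        · rintro (⟨⟨h1, h2⟩, h3⟩ | ⟨⟨h1, h2⟩, h3⟩)
          · exact ⟨⟨h1, h2.trans hX⟩, h3⟩
          · exact ⟨⟨by omega, h2⟩, h3⟩
      · rw [Finset.disjoint_left]
        intro p hp hp'
        simp only [Finset.mem_filter, Finset.mem_Icc, Finset.mem_Ioc] at hp hp'
        omega
    linarith [h1.1, h1.2, h2.1, h2.2]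
  have hoff : ∀ i k, i ≠ k → |Kr i k| ≤ C0 * R := by
    intro i k hik
    have hpos : 0 < |y i - y k| := hd.trans_le (hsep i k hik)
    have h := hcos z X |y i - y k| hz hX hpos
    have e : ∀ p : ℕ, Real.cos (|y i - y k| * Real.log p) = Real.cos ((y i - y k) * Real.log p) := by
      intro p
      rcases abs_choice (y i - y k) with h | h
      · rw [h]
      · rw [h, neg_mul, Real.cos_neg]
    have e2 : ∑ p ∈ (Finset.Ioc z X).filter Nat.Prime, Real.cos (|y i - y k| * Real.log p) / p = Kr i k := by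
      rw [hKr]
      exact Finset.sum_congr rfl fun p _ => by rw [e]
    rw [e2] at h
    refine h.trans ?_
    rw [hR]
    gcongr
    · exact hsep i k hik
    · exact hD i k
  have hterm : ∀ i k, (if i = k then b i ^ 2 * (Δ - 2 * C1) else 0) - |b i| * |b k| * (C0 * R) ≤
      b i * b k * Kr i k := by
    intro i k
    split_ifs with h
    · subst h
      have h1 : b i ^ 2 * (Δ - 2 * C1) ≤ b i * b i * Kr i i := by
        rw [← sq]
        exact mul_le_mul_of_nonneg_left (hdiag i) (sq_nonneg _)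
      have h2 : 0 ≤ |b i| * |b i| * (C0 * R) := by positivity
      linarith
    · have h1 : |b i * b k * Kr i k| ≤ |b i| * |b k| * (C0 * R) := by
        rw [abs_mul, abs_mul]
        exact mul_le_mul_of_nonneg_left (hoff i k h) (by positivity)
      have := (abs_le.1 h1).1
      linarith
  have hsum : (Δ - 2 * C1) * ∑ i, b i ^ 2 - (∑ i, |b i|) ^ 2 * (C0 * R) ≤ ∑ i, ∑ k, b i * b k * Kr i k := by
    calc _ = ∑ i, ∑ k, ((if i = k then b i ^ 2 * (Δ - 2 * C1) else 0) - |b i| * |b k| * (C0 * R)) := by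
          simp only [Finset.sum_sub_distrib, Finset.sum_ite_eq, Finset.mem_univ, if_true]
          congr 1
          · rw [Finset.mul_sum]
            exact Finset.sum_congr rfl fun i _ => by ring
          · rw [sq, Finset.sum_mul_sum, Finset.sum_mul]
            exact Finset.sum_congr rfl fun i _ => by rw [Finset.sum_mul]
      _ ≤ _ := Finset.sum_le_sum fun i _ => Finset.sum_le_sum fun k _ => hterm i k
  have hcs : (∑ i, |b i|) ^ 2 ≤ m * ∑ i, b i ^ 2 := by
    have := sq_sum_le_card_mul_sum_sq (s := (Finset.univ : Finset (Fin m))) (f := fun i => |b i|)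
    simpa using this
  have hS0 : 0 ≤ ∑ i, b i ^ 2 := Finset.sum_nonneg fun i _ => sq_nonneg _
  have h1 : (∑ i, |b i|) ^ 2 * (C0 * R) ≤ m * (∑ i, b i ^ 2) * (C0 * R) :=
    mul_le_mul_of_nonneg_right hcs (by positivity)
  have h2 : 0 ≤ 2 * C1 * m * R * ∑ i, b i ^ 2 := by positivity
  have h3 : 0 ≤ C0 * ∑ i, b i ^ 2 := by positivity
  calc _ = (Δ - 2 * C1) * ∑ i, b i ^ 2 - m * (∑ i, b i ^ 2) * (C0 * R) - 2 * C1 * m * R * ∑ i, b i ^ 2 -
        C0 * ∑ i, b i ^ 2 := by ring
    _ ≤ _ := by linarith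

end Pool.Agent.P8H45.EN.Ls
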